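import Pool.Agent.Y394.UF.Basic

/-!
The two properties are irreducible, and `PP ^ 3 = PP * RR`.
-/

set_option autoImplicit false

namespace Pool.Agent.Y394.UF

/-- irreducible -/
def Irr (P : Pr) : Prop := ∀ A B : Pr, Her A → Her B → A 1 ⊥ → B 1 ⊥ →
  ¬ ∀ (n : ℕ) (G : SimpleGraph (Fin n)), (P n G ↔ ∃ S : Set (Fin n), In A G S ∧ In B G Sᶜ)

/-- a set of small size in `Fin n` -/
theorem ncard_add_compl {n : ℕ} (S : Set (Fin n)) : S.ncard + Sᶜ.ncard = n := by
  have := Set.ncard_add_ncard_compl S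
  rwa [Nat.card_eq_fintype_card, Fintype.card_fin] at this

/-- the path with three vertices -/
def G3 : SimpleGraph (Fin 3) := SimpleGraph.fromRel (fun u v => u ≠ 2 ∧ v = 2)

theorem hom_bot {n r : ℕ} (G : SimpleGraph (Fin n)) (S : Set (Fin n))
    (hS : ∀ u ∈ S, ∀ v ∈ S, ¬ G.Adj u v) (hr : S.ncard ≤ r) {A : Pr} (hA : Her A)
    (h : A r ⊥) : In A G S := by
  classical
  have hc : Fintype.card S = S.ncard := by
    rw [← Nat.card_coe_set_eq, Nat.card_eq_fintype_card]
  obtain ⟨f⟩ : Nonempty (S ↪ Fin r) := Function.Embedding.nonempty_of_card_le (by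
    rw [hc, Fintype.card_fin]; exact hr)
  refine in_of_hom hA G S ⊥ h ⟨f, ?_⟩ f.injective
  intro a b hab
  exact absurd hab (hS _ a.2 _ b.2)

theorem irr_PP : Irr PP := by
  intro A B hA hB a1 b1 h
  have aux : ∀ A B : Pr, Her A → Her B → A 2 ⊥ → B 1 ⊥ →
      ∃ S : Set (Fin 3), In A G3 S ∧ In B G3 Sᶜ := by
    intro A B hA hB a2 b1
    refine ⟨{0, 1}, hom_bot G3 _ ?_ ?_ hA a2, hom_bot G3 _ ?_ ?_ hB b1⟩
    · intro u hu v hv huv
      simp only [Set.mem_insert_iff, Set.mem_singleton_iff] at hu hv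
      rcases hu with rfl | rfl <;> rcases hv with rfl | rfl <;> simp [G3] at huv
    · rw [Set.ncard_pair (by decide)]
    · intro u hu v hv huv
      have h2 : ∀ w : Fin 3, w ∈ ({0, 1} : Set (Fin 3))ᶜ → w = 2 := by
        intro w hw
        fin_cases w <;> simp at hw ⊢
      rw [h2 u hu, h2 v hv] at huv
      exact huv.ne rfl
    · have := ncard_add_compl ({0, 1} : Set (Fin 3))
      rw [Set.ncard_pair (by decide)] at this
      omega
  have hno : ¬ PP 3 G3 := by
    rintro (h | ⟨_, h⟩)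
    · omega
    · exact h 0 2 (by simp [G3])
  obtain ⟨S, hS, hS'⟩ := (h 3 ⊥).1 (Or.inr ⟨le_rfl, fun _ _ h => h.elim⟩)
  have hc := ncard_add_compl S
  by_cases h2 : 2 ≤ S.ncard
  · exact hno ((h 3 G3).2 (aux A B hA hB (bot_of_in hA hS h2) b1))
  · obtain ⟨T, hT, hT'⟩ := aux B A hB hA (bot_of_in hB hS' (by omega)) a1
    exact hno ((h 3 G3).2 ⟨Tᶜ, hT', by rwa [compl_compl]⟩)

theorem not_RR_of_triangle {n : ℕ} (hn : 5 ≤ n) (G : SimpleGraph (Fin n)) (x y z : Fin n)
    (hxy : G.Adj x y) (hxz : G.Adj x z) (hyz : G.Adj y z) : ¬ RR n G := by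
  rintro (h | ⟨T, _, _, h1, h2⟩)
  · omega
  · by_cases hx : x ∈ T
    · have hy : y ∈ Tᶜ := fun hy => h1 x hx y hy hxy
      have hz : z ∈ Tᶜ := fun hz => h1 x hx z hz hxz
      exact h2 y hy z hz hyz
    · have hy : y ∈ T := by by_contra hy; exact h2 x hx y hy hxy
      have hz : z ∈ T := by by_contra hz; exact h2 x hx z hz hxz
      exact h1 y hy z hz hyz

/-- all edges except inside `{2, 3, 4}` -/
def G5 : SimpleGraph (Fin 5) := SimpleGraph.fromRel (fun u _ => (u : ℕ) ≤ 1)

theorem in_top {A : Pr} (hA : Her A) {n : ℕ} (S : Set (Fin n))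
    (h : In A (⊤ : SimpleGraph (Fin n)) S) (h2 : 2 ≤ S.ncard) : A 2 ⊤ := by
  obtain ⟨r, K, hK, ⟨g⟩⟩ := h
  have hr := card_of_in g
  have hadj : ∀ u v : Fin r, u ≠ v → K.Adj u v := by
    intro u v huv
    have : (SimpleGraph.induce S (⊤ : SimpleGraph (Fin n))).Adj (g.symm u) (g.symm v) := by
      intro h
      exact huv (g.symm.injective (Subtype.ext h))
    exact g.symm.map_adj_iff.1 this
  refine hA r 2 K ⊤ ⟨Fin.castLE (by omega), ?_⟩ (Fin.castLE_injective (by omega)) hK
  intro a b hab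
  exact hadj _ _ (fun h => hab (Fin.castLE_injective _ h))

theorem irr_RR : Irr RR := by
  intro A B hA hB a1 b1 h
  have aux : ∀ A B : Pr, Her A → Her B → A 2 ⊤ → B 3 ⊥ →
      ∃ S : Set (Fin 5), In A G5 S ∧ In B G5 Sᶜ := by
    intro A B hA hB a2 b3
    refine ⟨{u | (u : ℕ) ≤ 1}, ?_, ?_⟩
    · refine in_of_hom hA G5 _ ⊤ a2 ⟨fun u => ⟨(u : Fin 5), by
        have h : ((u : Fin 5) : ℕ) ≤ 1 := u.2
        omega⟩, ?_⟩ ?_
      · intro a b hab hab'
        have h1 : (a : Fin 5) ≠ b := fun h => by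
          have h2 : G5.Adj (a : Fin 5) b := hab
          rw [h] at h2
          exact h2.ne rfl
        apply h1
        rw [Fin.mk.injEq] at hab'
        exact Fin.ext hab'
      · intro a b hab
        have hab' := congrArg Fin.val hab
        exact Subtype.ext (Fin.ext hab')
    · refine hom_bot G5 _ ?_ ?_ hB b3
      · intro u hu v hv huv
        have hu' : ¬ ((u : ℕ) ≤ 1) := hu
        have hv' : ¬ ((v : ℕ) ≤ 1) := hv
        rcases huv.2 with h | h
        · exact hu' h
        · exact hv' h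
      · have h1 := ncard_add_compl ({u | (u : ℕ) ≤ 1} : Set (Fin 5))
        have h2 : 2 ≤ ({u | (u : ℕ) ≤ 1} : Set (Fin 5)).ncard := by
          rw [← Set.ncard_pair (show (0 : Fin 5) ≠ 1 by decide)]
          apply Set.ncard_le_ncard _ (Set.toFinite _)
          intro x hx
          simp only [Set.mem_insert_iff, Set.mem_singleton_iff] at hx
          rcases hx with rfl | rfl <;> simp
        omega
  have hno5 : ¬ RR 5 G5 := not_RR_of_triangle le_rfl G5 0 1 2 (by simp [G5]) (by simp [G5])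
    (by simp [G5])
  -- no graph of order 7
  have hno7 : ¬ RR 7 ⊥ := by
    rintro (h | ⟨T, h1, h2, _⟩)
    · omega
    · have := ncard_add_compl T
      omega
  have aux7 : ∀ A B : Pr, Her A → Her B → A 6 ⊥ → B 1 ⊥ →
      ∃ S : Set (Fin 7), In A ⊥ S ∧ In B ⊥ Sᶜ := by
    intro A B hA hB a6 b1
    have h1 := ncard_add_compl ({0} : Set (Fin 7))
    rw [Set.ncard_singleton] at h1
    exact ⟨{0}ᶜ, hom_bot (⊥ : SimpleGraph (Fin 7)) _ (fun _ _ _ _ h => h.elim) (by omega) hA a6,
      hom_bot (⊥ : SimpleGraph (Fin 7)) _ (fun _ _ _ _ h => h.elim)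
        (by rw [compl_compl, Set.ncard_singleton]) hB b1⟩
  -- decompose the edgeless graph with six vertices
  obtain ⟨S, hS, hS'⟩ := (h 6 ⊥).1 (Or.inr ⟨{u | (u : ℕ) ≤ 2}, by
      have : ({u | (u : ℕ) ≤ 2} : Set (Fin 6)) ⊆ {0, 1, 2} := by
        intro x hx
        simp only [Set.mem_ofPred_eq] at hx
        simp only [Set.mem_insert_iff, Set.mem_singleton_iff, Fin.ext_iff]
        omega
      exact (Set.ncard_le_ncard this (Set.toFinite _)).trans (by
        rw [Set.ncard_eq_toFinset_card']; decide), by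
      have : ({u | (u : ℕ) ≤ 2} : Set (Fin 6))ᶜ ⊆ {3, 4, 5} := by
        intro x hx
        simp only [Set.mem_compl_iff, Set.mem_ofPred_eq] at hx
        simp only [Set.mem_insert_iff, Set.mem_singleton_iff, Fin.ext_iff]
        omega
      exact (Set.ncard_le_ncard this (Set.toFinite _)).trans (by
        rw [Set.ncard_eq_toFinset_card']; decide), fun _ _ _ _ h => h.elim,
      fun _ _ _ _ h => h.elim⟩)
  have hc := ncard_add_compl S
  have hA3B3 : A 3 ⊥ ∧ B 3 ⊥ := by
    by_cases hS0 : S.ncard = 0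
    · exfalso
      obtain ⟨T, hT, hT'⟩ := aux7 B A hB hA (bot_of_in hB hS' (by omega)) a1
      exact hno7 ((h 7 ⊥).2 ⟨Tᶜ, hT', by rwa [compl_compl]⟩)
    by_cases hS1 : Sᶜ.ncard = 0
    · exfalso
      exact hno7 ((h 7 ⊥).2 (aux7 A B hA hB (bot_of_in hA hS (by omega)) b1))
    obtain ⟨s, hs⟩ : S.Nonempty := by
      rw [← Set.ncard_pos (Set.toFinite _)]
      omega
    obtain ⟨t, ht⟩ : Sᶜ.Nonempty := by
      rw [← Set.ncard_pos (Set.toFinite _)]
      omega
    -- the complete bipartite graph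
    let G : SimpleGraph (Fin 6) := SimpleGraph.fromRel (fun u v => u ∈ S ∧ v ∈ Sᶜ)
    have hG : ∀ u ∈ S, ∀ v ∈ Sᶜ, G.Adj u v := by
      intro u hu v hv
      exact ⟨fun h => hv (h ▸ hu), Or.inl ⟨hu, hv⟩⟩
    have hR : RR 6 G := by
      refine (h 6 G).2 ⟨S, hom_bot _ _ ?_ le_rfl hA (bot_of_in hA hS le_rfl),
        hom_bot _ _ ?_ le_rfl hB (bot_of_in hB hS' le_rfl)⟩
      · intro u hu v hv huv
        rcases huv.2 with h | h
        · exact h.2 hv
        · exact h.2 hu
      · intro u hu v hv huv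
        rcases huv.2 with h | h
        · exact hu h.1
        · exact hv h.1
    rcases hR with h6 | ⟨T, h1, h2, h3, h4⟩
    · omega
    have hTc := ncard_add_compl T
    by_cases hsT : s ∈ T
    · have e1 : Sᶜ ⊆ Tᶜ := fun v hv hvT => h3 s hsT v hvT (hG s hs v hv)
      have e2 : S ⊆ T := by
        intro u hu
        by_contra hu'
        exact h4 u hu' t (e1 ht) (hG u hu t ht)
      have f1 := Set.ncard_le_ncard e1 (Set.toFinite _)
      have f2 := Set.ncard_le_ncard e2 (Set.toFinite _)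
      exact ⟨bot_of_in hA hS (by omega), bot_of_in hB hS' (by omega)⟩
    · have e1 : Sᶜ ⊆ T := by
        intro v hv
        by_contra hvT
        exact h4 s hsT v hvT (hG s hs v hv)
      have e2 : S ⊆ Tᶜ := fun u hu huT => h3 u huT t (e1 ht) (hG u hu t ht)
      have f1 := Set.ncard_le_ncard e1 (Set.toFinite _)
      have f2 := Set.ncard_le_ncard e2 (Set.toFinite _)
      exact ⟨bot_of_in hA hS (by omega), bot_of_in hB hS' (by omega)⟩
  -- decompose the complete graph with four vertices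
  obtain ⟨S, hS, hS'⟩ := (h 4 ⊤).1 (Or.inl le_rfl)
  have hc := ncard_add_compl S
  by_cases h2 : 2 ≤ S.ncard
  · exact hno5 ((h 5 G5).2 (aux A B hA hB (in_top hA S hS h2) hA3B3.2))
  · obtain ⟨T, hT, hT'⟩ := aux B A hB hA (in_top hB _ hS' (by omega)) hA3B3.1
    exact hno5 ((h 5 G5).2 ⟨Tᶜ, hT', by rwa [compl_compl]⟩)

/-- the type of a part -/
theorem two_types {n : ℕ} (G : SimpleGraph (Fin n)) (S T : Set (Fin n)) (hST : Disjoint S T)
    (h : (S.ncard ≤ 2 ∧ T.ncard ≤ 2) ∨
      ((S.ncard ≤ 3 ∧ ∀ u ∈ S, ∀ v ∈ S, ¬ G.Adj u v) ∧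
        (T.ncard ≤ 3 ∧ ∀ u ∈ T, ∀ v ∈ T, ¬ G.Adj u v))) : In RR G (S ∪ T) := by
  rw [in_RR]
  rcases h with ⟨h1, h2⟩ | ⟨⟨h1, h2⟩, h3, h4⟩
  · left
    exact (Set.ncard_union_le _ _).trans (by omega)
  · right
    have hd : (S ∪ T) \ S = T := by
      rw [Set.union_sdiff_left]
      exact sdiff_eq_self_iff_disjoint.2 hST
    refine ⟨S, Set.subset_union_left, h1, ?_, h2, ?_⟩
    · rw [hd]; exact h3
    · rw [hd]; exact h4

theorem prod_eq (n : ℕ) (G : SimpleGraph (Fin n)) :
    (∃ c : Fin n → Fin 3, ∀ i : Fin 3, In PP G {v | c v = i}) ↔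
      ∃ c : Fin n → Fin 2, ∀ j : Fin 2, In (![PP, RR] j) G {v | c v = j} := by
  classical
  constructor
  · rintro ⟨c, hc⟩
    -- two of the three parts have the same type
    have hty : ∀ i : Fin 3, ({v | c v = i} : Set (Fin n)).ncard ≤ 2 ∨
        (({v | c v = i} : Set (Fin n)).ncard ≤ 3 ∧ ∀ u ∈ ({v | c v = i} : Set (Fin n)),
          ∀ v ∈ ({v | c v = i} : Set (Fin n)), ¬ G.Adj u v) := fun i => (in_PP G _).1 (hc i)
    have hpair : ∃ i j k : Fin 3, i ≠ j ∧ i ≠ k ∧ j ≠ k ∧
        ((({v | c v = i} : Set (Fin n)).ncard ≤ 2 ∧ ({v | c v = j} : Set (Fin n)).ncard ≤ 2) ∨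
        ((({v | c v = i} : Set (Fin n)).ncard ≤ 3 ∧ ∀ u ∈ ({v | c v = i} : Set (Fin n)),
          ∀ v ∈ ({v | c v = i} : Set (Fin n)), ¬ G.Adj u v) ∧
          (({v | c v = j} : Set (Fin n)).ncard ≤ 3 ∧ ∀ u ∈ ({v | c v = j} : Set (Fin n)),
          ∀ v ∈ ({v | c v = j} : Set (Fin n)), ¬ G.Adj u v))) := by
      rcases hty 0 with h0 | h0
      · rcases hty 1 with h1 | h1
        · exact ⟨0, 1, 2, by decide, by decide, by decide, Or.inl ⟨h0, h1⟩⟩
        · rcases hty 2 with h2 | h2
          · exact ⟨0, 2, 1, by decide, by decide, by decide, Or.inl ⟨h0, h2⟩⟩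
          · exact ⟨1, 2, 0, by decide, by decide, by decide, Or.inr ⟨h1, h2⟩⟩
      · rcases hty 1 with h1 | h1
        · rcases hty 2 with h2 | h2
          · exact ⟨1, 2, 0, by decide, by decide, by decide, Or.inl ⟨h1, h2⟩⟩
          · exact ⟨0, 2, 1, by decide, by decide, by decide, Or.inr ⟨h0, h2⟩⟩
        · exact ⟨0, 1, 2, by decide, by decide, by decide, Or.inr ⟨h0, h1⟩⟩
    obtain ⟨i, j, k, hij, hik, hjk, hP⟩ := hpair
    have hall : ∀ x : Fin 3, x = k ∨ x = i ∨ x = j := by
      have : ∀ i j k : Fin 3, i ≠ j → i ≠ k → j ≠ k → ∀ x : Fin 3, x = k ∨ x = i ∨ x = j := by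
        decide
      exact this i j k hij hik hjk
    refine ⟨fun v => if c v = k then 0 else 1, ?_⟩
    intro l
    fin_cases l
    · have : ({v | (if c v = k then (0 : Fin 2) else 1) = 0} : Set (Fin n)) = {v | c v = k} := by
        ext v
        simp
      simp only [Fin.zero_eta, Matrix.cons_val_zero]
      rw [this]
      exact hc k
    · have : ({v | (if c v = k then (0 : Fin 2) else 1) = 1} : Set (Fin n)) =
          {v | c v = i} ∪ {v | c v = j} := by
        ext v
        simp only [Set.mem_ofPred_eq, Set.mem_union]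
        by_cases hv : c v = k
        · rw [if_pos hv]
          constructor
          · intro h; exact absurd h (by decide)
          · rintro (h | h)
            · exact absurd (h.symm.trans hv) hik
            · exact absurd (h.symm.trans hv) hjk
        · rw [if_neg hv]
          constructor
          · intro _
            rcases hall (c v) with h | h
            · exact absurd h hv
            · exact h
          · intro _; rfl
      simp only [Fin.mk_one, Matrix.cons_val_one, Matrix.cons_val_zero]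
      rw [this]
      refine two_types G _ _ ?_ hP
      rw [Set.disjoint_left]
      intro x hx hx'
      exact hij (hx.symm.trans hx')
  · rintro ⟨c, hc⟩
    have h0 : In PP G {v | c v = 0} := hc 0
    have h1 : In RR G {v | c v = 1} := hc 1
    rw [in_RR] at h1
    -- split the second part
    have hsplit : ∃ T ⊆ {v | c v = 1}, In PP G T ∧ In PP G ({v | c v = 1} \ T) := by
      rcases h1 with h1 | ⟨T, hT, a, b, d, e⟩
      · obtain ⟨T, hT, hTc⟩ := Set.exists_subset_card_eq
          (s := ({v | c v = 1} : Set (Fin n))) (n := min 2 ({v | c v = 1} : Set (Fin n)).ncard)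
          (min_le_right _ _)
        refine ⟨T, hT, (in_PP G _).2 (Or.inl (by omega)), (in_PP G _).2 (Or.inl ?_)⟩
        have := Set.ncard_sdiff hT (Set.toFinite _)
        omega
      · exact ⟨T, hT, (in_PP G _).2 (Or.inr ⟨a, d⟩), (in_PP G _).2 (Or.inr ⟨b, e⟩)⟩
    obtain ⟨T, hT, hT1, hT2⟩ := hsplit
    refine ⟨fun v => if c v = 0 then 0 else if v ∈ T then 1 else 2, ?_⟩
    have hc01 : ∀ x : Fin 2, x ≠ 0 ↔ x = 1 := by decide
    intro i
    fin_cases i
    · have : ({v | (if c v = 0 then (0 : Fin 3) else if v ∈ T then 1 else 2) = 0} : Set (Fin n)) =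
          {v | c v = 0} := by
        ext v
        simp only [Set.mem_ofPred_eq]
        split_ifs with h1 h2 <;> simp [h1]
      simp only [Fin.zero_eta]
      rw [this]
      exact h0
    · have : ({v | (if c v = 0 then (0 : Fin 3) else if v ∈ T then 1 else 2) = 1} : Set (Fin n)) =
          T := by
        ext v
        simp only [Set.mem_ofPred_eq]
        split_ifs with h1 h2
        · simp only [Fin.isValue, zero_ne_one, false_iff]
          intro hv
          have := hT hv
          simp only [Set.mem_ofPred_eq] at this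
          rw [h1] at this
          exact absurd this (by decide)
        · simp [h2]
        · simp [h2]
      simp only [Fin.mk_one]
      rw [this]
      exact hT1
    · have : ({v | (if c v = 0 then (0 : Fin 3) else if v ∈ T then 1 else 2) = 2} : Set (Fin n)) =
          {v | c v = 1} \ T := by
        ext v
        simp only [Set.mem_ofPred_eq, Set.mem_sdiff]
        split_ifs with h1 h2
        · simp [h1]
        · simp [h2]
        · simp [h2, (hc01 _).1 h1]
      simp only [Fin.reduceFinMk]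
      rw [this]
      exact hT2

end Pool.Agent.Y394.UF
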