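import Mathlib

/-!
Two factorizations of a hereditary property of graphs into irreducible properties.
-/

set_option autoImplicit false

namespace Pool.Agent.Y394.UF

/-- graph properties -/
abbrev Pr : Type := (n : ℕ) → SimpleGraph (Fin n) → Prop

/-- closed under subgraphs -/
def Her (A : Pr) : Prop := ∀ (a b : ℕ) (G : SimpleGraph (Fin a)) (H : SimpleGraph (Fin b))
  (f : H →g G), Function.Injective f → A a G → A b H

/-- the graph induced on `S` has the property -/
def In (A : Pr) {n : ℕ} (G : SimpleGraph (Fin n)) (S : Set (Fin n)) : Prop :=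
  ∃ (r : ℕ) (K : SimpleGraph (Fin r)), A r K ∧ Nonempty (G.induce S ≃g K)

theorem in_of_hom {A : Pr} (hA : Her A) {n r : ℕ} (G : SimpleGraph (Fin n)) (S : Set (Fin n))
    (K : SimpleGraph (Fin r)) (hK : A r K) (f : G.induce S →g K) (hf : Function.Injective f) :
    In A G S := by
  classical
  let e : S ≃ Fin (Fintype.card S) := Fintype.equivFin S
  let K' : SimpleGraph (Fin (Fintype.card S)) := (G.induce S).comap e.symm
  have g : G.induce S ≃g K' :=
    { toEquiv := e
      map_rel_iff' := by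
        intro a b
        simp [K'] }
  refine ⟨_, K', hA _ _ K K' (f.comp g.symm.toHom) ?_ hK, ⟨g⟩⟩
  exact hf.comp g.symm.injective

theorem card_of_in {n : ℕ} {G : SimpleGraph (Fin n)} {S : Set (Fin n)} {r : ℕ}
    {K : SimpleGraph (Fin r)} (g : G.induce S ≃g K) : S.ncard = r := by
  have := Nat.card_congr g.toEquiv
  rw [Nat.card_coe_set_eq, Nat.card_eq_fintype_card, Fintype.card_fin] at this
  exact this

theorem bot_of_le {A : Pr} (hA : Her A) {r s : ℕ} {K : SimpleGraph (Fin r)} (hK : A r K)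
    (h : s ≤ r) : A s ⊥ :=
  hA r s K ⊥ ⟨Fin.castLE h, fun h => h.elim⟩ (Fin.castLE_injective h) hK

theorem bot_of_in {A : Pr} (hA : Her A) {n : ℕ} {G : SimpleGraph (Fin n)} {S : Set (Fin n)}
    (h : In A G S) {s : ℕ} (hs : s ≤ S.ncard) : A s ⊥ := by
  obtain ⟨r, K, hK, ⟨g⟩⟩ := h
  have := card_of_in g
  exact bot_of_le hA hK (by omega)

/-- the first property: at most two vertices, or at most three vertices and no edges -/
def PP : Pr := fun n G => n ≤ 2 ∨ (n ≤ 3 ∧ ∀ u v, ¬ G.Adj u v)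

/-- the second property: at most four vertices, or a subgraph of `K_{3,3}` -/
def RR : Pr := fun n G => n ≤ 4 ∨ ∃ T : Set (Fin n), T.ncard ≤ 3 ∧ Tᶜ.ncard ≤ 3 ∧
  (∀ u ∈ T, ∀ v ∈ T, ¬ G.Adj u v) ∧ ∀ u ∈ Tᶜ, ∀ v ∈ Tᶜ, ¬ G.Adj u v

theorem her_PP : Her PP := by
  intro a b G H f hf h
  have hab : b ≤ a := by simpa using Fintype.card_le_of_injective f hf
  rcases h with h | ⟨h, h'⟩
  · exact Or.inl (by omega)
  · exact Or.inr ⟨by omega, fun u v huv => h' _ _ (f.map_adj huv)⟩

theorem her_RR : Her RR := by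
  intro a b G H f hf h
  have hab : b ≤ a := by simpa using Fintype.card_le_of_injective f hf
  rcases h with h | ⟨T, h1, h2, h3, h4⟩
  · exact Or.inl (by omega)
  · refine Or.inr ⟨f ⁻¹' T, ?_, ?_, ?_, ?_⟩
    · exact (Set.ncard_le_ncard_of_injOn f (fun x hx => hx) hf.injOn (Set.toFinite _)).trans h1
    · exact (Set.ncard_le_ncard_of_injOn f (fun x hx => hx) hf.injOn (Set.toFinite _)).trans h2
    · intro u hu v hv huv
      exact h3 _ hu _ hv (f.map_adj huv)
    · intro u hu v hv huv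
      exact h4 _ hu _ hv (f.map_adj huv)

theorem in_PP {n : ℕ} (G : SimpleGraph (Fin n)) (S : Set (Fin n)) :
    In PP G S ↔ S.ncard ≤ 2 ∨ (S.ncard ≤ 3 ∧ ∀ u ∈ S, ∀ v ∈ S, ¬ G.Adj u v) := by
  constructor
  · rintro ⟨r, K, hK, ⟨g⟩⟩
    have hr := card_of_in g
    rcases hK with h | ⟨h, h'⟩
    · exact Or.inl (by omega)
    · refine Or.inr ⟨by omega, fun u hu v hv huv => ?_⟩
      have h1 : (G.induce S).Adj ⟨u, hu⟩ ⟨v, hv⟩ := huv
      exact h' _ _ (g.map_adj_iff.2 h1)
  · intro h
    classical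
    refine in_of_hom her_PP G S ((G.induce S).comap (Fintype.equivFin S).symm) ?_
      ⟨Fintype.equivFin S, ?_⟩ (Fintype.equivFin S).injective
    · have hc : Fintype.card S = S.ncard := by
        rw [← Nat.card_coe_set_eq, Nat.card_eq_fintype_card]
      rcases h with h | ⟨h, h'⟩
      · exact Or.inl (by omega)
      · exact Or.inr ⟨by omega, fun u v huv => h' _ (Subtype.coe_prop _) _ (Subtype.coe_prop _) huv⟩
    · intro a b hab
      simpa using hab

theorem in_RR {n : ℕ} (G : SimpleGraph (Fin n)) (S : Set (Fin n)) :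
    In RR G S ↔ S.ncard ≤ 4 ∨ ∃ T ⊆ S, T.ncard ≤ 3 ∧ (S \ T).ncard ≤ 3 ∧
      (∀ u ∈ T, ∀ v ∈ T, ¬ G.Adj u v) ∧ ∀ u ∈ S \ T, ∀ v ∈ S \ T, ¬ G.Adj u v := by
  constructor
  · rintro ⟨r, K, hK, ⟨g⟩⟩
    have hr := card_of_in g
    rcases hK with h | ⟨T, h1, h2, h3, h4⟩
    · exact Or.inl (by omega)
    · have key : ∀ U : Set (Fin r), U.ncard ≤ 3 →
          (((fun x => (g.symm x : Fin n)) '' U)).ncard ≤ 3 := by
        intro U hU
        exact (Set.ncard_image_le (Set.toFinite _)).trans hU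
      have hmem : ∀ (U : Set (Fin r)) (x : Fin n) (hx : x ∈ S),
          x ∈ ((fun x => (g.symm x : Fin n)) '' U) ↔ g ⟨x, hx⟩ ∈ U := by
        intro U x hx
        constructor
        · rintro ⟨y, hy, hyx⟩
          have : g.symm y = ⟨x, hx⟩ := Subtype.ext hyx
          rw [← this]
          simpa using hy
        · intro h
          exact ⟨_, h, by simp⟩
      refine Or.inr ⟨(fun x => (g.symm x : Fin n)) '' T, ?_, key T h1, ?_, ?_, ?_⟩
      · rintro _ ⟨y, _, rfl⟩
        exact (g.symm y).2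
      · refine le_trans (Set.ncard_le_ncard ?_ (Set.toFinite _)) (key Tᶜ h2)
        rintro x ⟨hx, hx'⟩
        rw [hmem _ _ hx] at hx' ⊢
        exact hx'
      · rintro _ ⟨y, hy, rfl⟩ _ ⟨z, hz, rfl⟩ h
        have h' : (G.induce S).Adj (g.symm y) (g.symm z) := h
        exact h3 _ hy _ hz (g.symm.map_adj_iff.1 h')
      · rintro u ⟨hu, hu'⟩ v ⟨hv, hv'⟩ h
        rw [hmem _ _ hu] at hu'
        rw [hmem _ _ hv] at hv'
        have h' : (G.induce S).Adj ⟨u, hu⟩ ⟨v, hv⟩ := h
        exact h4 _ hu' _ hv' (g.map_adj_iff.2 h')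
  · intro h
    classical
    refine in_of_hom her_RR G S ((G.induce S).comap (Fintype.equivFin S).symm) ?_
      ⟨Fintype.equivFin S, ?_⟩ (Fintype.equivFin S).injective
    · have hc : Fintype.card S = S.ncard := by
        rw [← Nat.card_coe_set_eq, Nat.card_eq_fintype_card]
      rcases h with h | ⟨T, h1, h2, h3, h4, h5⟩
      · exact Or.inl (by omega)
      · refine Or.inr ⟨{x | ((Fintype.equivFin S).symm x : Fin n) ∈ T}, ?_, ?_, ?_, ?_⟩
        · exact (Set.ncard_le_ncard_of_injOn (fun x => ((Fintype.equivFin S).symm x : Fin n))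
            (fun x hx => hx) (fun x _ y _ hxy => by simpa using (Subtype.ext hxy)) (Set.toFinite _)).trans h2
        · exact (Set.ncard_le_ncard_of_injOn (fun x => ((Fintype.equivFin S).symm x : Fin n))
            (t := S \ T) (fun x hx => (⟨Subtype.coe_prop _, hx⟩ : _ ∧ _))
            (fun x _ y _ hxy => by simpa using (Subtype.ext hxy)) (Set.toFinite _)).trans h3
        · intro u hu v hv huv
          exact h4 _ hu _ hv huv
        · intro u hu v hv huv
          exact h5 ((Fintype.equivFin S).symm u : Fin n) ⟨Subtype.coe_prop _, hu⟩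
            ((Fintype.equivFin S).symm v : Fin n) ⟨Subtype.coe_prop _, hv⟩ huv
    · intro a b hab
      simpa using hab

end Pool.Agent.Y394.UF
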